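import Pool.Agent.Q257.MX.MAX

/-!
# Project MX, job GAU: the Gauss sums
-/

set_option autoImplicit false

namespace Q257.MX

open Finset Module Q44.MX
open scoped Classical

section quad

variable {V : Type} [AddCommGroup V] [Module (ZMod 2) V] [Fintype V]

/-- an alternating form has a quadratic refinement -/
theorem exists_quad (b : V →ₗ[ZMod 2] V →ₗ[ZMod 2] ZMod 2) (hb : ∀ z, b z z = 0) :
    ∃ g : V → ZMod 2, g 0 = 0 ∧ ∀ z z', g (z + z') = g z + g z' + b z z' := by
  have hsym : ∀ x y, b x y = b y x := by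
    intro x y
    have h1 := hb (x + y)
    rw [map_add, map_add, LinearMap.add_apply, LinearMap.add_apply, hb, hb, zero_add,
      add_zero] at h1
    have h2 : b x y = -b y x := by linear_combination h1
    rw [h2, CharTwo.neg_eq]
  let β := Module.finBasis (ZMod 2) V
  refine ⟨fun z => ∑ i, ∑ j, if j < i then b (β i) (β j) * (β.repr z i * β.repr z j) else 0, ?_, ?_⟩
  · simp
  · intro z z'
    have e1 : b z z' = ∑ i, ∑ j, b (β i) (β j) * (β.repr z i * β.repr z' j) := by
      conv_lhs => rw [← β.sum_repr z, ← β.sum_repr z']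
      rw [map_sum b, LinearMap.sum_apply]
      refine sum_congr rfl fun i _ => ?_
      rw [map_sum]
      refine sum_congr rfl fun j _ => ?_
      rw [map_smul, map_smul, LinearMap.smul_apply, smul_eq_mul, smul_eq_mul]
      ring
    have e2 : ∑ i, ∑ j, b (β i) (β j) * (β.repr z i * β.repr z' j) =
        (∑ i, ∑ j, if j < i then b (β i) (β j) * (β.repr z i * β.repr z' j) else 0) +
        ∑ i, ∑ j, if i < j then b (β i) (β j) * (β.repr z i * β.repr z' j) else 0 := by
      rw [← sum_add_distrib]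
      refine sum_congr rfl fun i _ => ?_
      rw [← sum_add_distrib]
      refine sum_congr rfl fun j _ => ?_
      rcases lt_trichotomy i j with h | h | h
      · rw [if_neg h.not_gt, if_pos h, zero_add]
      · subst h
        rw [if_neg (lt_irrefl _), hb, zero_mul, add_zero]
      · rw [if_pos h, if_neg h.not_gt, add_zero]
    rw [e1, e2, sum_comm (f := fun i j => if i < j then b (β i) (β j) *
      (β.repr z i * β.repr z' j) else 0), ← sum_add_distrib, ← sum_add_distrib, ← sum_add_distrib]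
    refine sum_congr rfl fun i _ => ?_
    rw [← sum_add_distrib, ← sum_add_distrib, ← sum_add_distrib]
    refine sum_congr rfl fun j _ => ?_
    by_cases h : j < i
    · simp only [if_pos h]
      rw [map_add, Finsupp.add_apply, Finsupp.add_apply, hsym (β j) (β i)]
      ring
    · simp only [if_neg h]
      ring

/-- the value of a quadratic function at a sum -/
theorem quad_sum {P : Type} [LinearOrder P] {b : V →ₗ[ZMod 2] V →ₗ[ZMod 2] ZMod 2} {g : V → ZMod 2}
    (g0 : g 0 = 0) (hg : ∀ z z', g (z + z') = g z + g z' + b z z') (y : P → V) (s : Finset P) :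
    g (∑ p ∈ s, y p) = ∑ p ∈ s, g (y p) + ∑ p ∈ s, ∑ q ∈ s.filter (fun q => q < p), b (y p) (y q) := by
  induction s using Finset.induction_on_max with
  | empty => simp [g0]
  | insert a s ha ih =>
    have has : a ∉ s := fun h => lt_irrefl _ (ha a h)
    have h1 : (insert a s).filter (fun q => q < a) = s := by
      ext q
      rw [mem_filter, mem_insert]
      constructor
      · rintro ⟨rfl | h, h2⟩
        · exact absurd h2 (lt_irrefl _)
        · exact h
      · intro h
        exact ⟨Or.inr h, ha q h⟩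
    have h2 : ∀ p ∈ s, (insert a s).filter (fun q => q < p) = s.filter (fun q => q < p) := by
      intro p hp
      rw [filter_insert, if_neg (ha p hp).not_gt]
    rw [sum_insert has, sum_insert has, sum_insert has, hg, ih, h1, map_sum,
      sum_congr rfl (fun p hp => by rw [h2 p hp] :
        ∀ p ∈ s, ∑ q ∈ (insert a s).filter (fun q => q < p), b (y p) (y q) =
          ∑ q ∈ s.filter (fun q => q < p), b (y p) (y q))]
    ring

omit [Module (ZMod 2) V] in
/-- the squaring argument -/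
theorem gauss_sq {φ : V → ZMod 2} {c : V → V →+ ZMod 2}
    (h : ∀ z z', φ (z + z') = φ z + φ z' + c z' z) :
    (∑ z, sg (φ z)) ^ 2 ≤ (Fintype.card V : ℝ) *
      (Nat.card {z' : V // ∀ z, c z' z = 0} : ℝ) := by
  have h1 : (∑ z, sg (φ z)) ^ 2 = ∑ z', sg (φ z') * ∑ z, sg (c z' z) := by
    rw [sq, sum_mul]
    have e1 : ∀ z, sg (φ z) * ∑ w, sg (φ w) = ∑ z', sg (φ z') * sg (c z' z) := by
      intro z
      rw [← Equiv.sum_comp (Equiv.addLeft z) (fun w => sg (φ w)), mul_sum]
      refine sum_congr rfl fun z' _ => ?_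
      rw [Equiv.coe_addLeft, h, sg_add, sg_add]
      have := sg_sq (φ z)
      linear_combination (sg (φ z') * sg (c z' z)) * this
    simp only [e1]
    rw [sum_comm]
    refine sum_congr rfl fun z' _ => ?_
    rw [mul_sum]
  rw [h1]
  have h2 : ∀ z', sg (φ z') * ∑ z, sg (c z' z) ≤
      if ∀ z, c z' z = 0 then (Fintype.card V : ℝ) else 0 := by
    intro z'
    rw [sum_sg]
    split_ifs
    · have h3 : sg (φ z') ≤ 1 := (le_abs_self _).trans (sg_abs _).le
      have h4 : (0 : ℝ) ≤ Fintype.card V := by positivity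
      nlinarith
    · rw [mul_zero]
  refine (sum_le_sum fun z' _ => h2 z').trans ?_
  rw [← sum_filter, sum_const, nsmul_eq_mul, Nat.card_eq_fintype_card, Fintype.card_subtype]
  rw [mul_comm]

/-- the Fourier coefficients -/
noncomputable def Fc (G : V → ℝ) (f : V →ₗ[ZMod 2] ZMod 2) : ℝ := ∑ v, G v * sg (f v)

theorem dual_card [Fintype (V →ₗ[ZMod 2] ZMod 2)] :
    Fintype.card (V →ₗ[ZMod 2] ZMod 2) = Fintype.card V := by
  rw [← Nat.card_eq_fintype_card, ← Nat.card_eq_fintype_card,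
    Module.natCard_eq_pow_finrank (K := ZMod 2), Module.natCard_eq_pow_finrank (K := ZMod 2) (V := V)]
  congr 1
  exact Subspace.dual_finrank_eq (K := ZMod 2) (V := V)

theorem dual_orth [Fintype (V →ₗ[ZMod 2] ZMod 2)] (v : V) :
    ∑ f : V →ₗ[ZMod 2] ZMod 2, sg (f v) = if v = 0 then (Fintype.card V : ℝ) else 0 := by
  have h := sum_sg (A := V →ₗ[ZMod 2] ZMod 2)
    ({ toFun := fun f => f v, map_zero' := rfl, map_add' := fun _ _ => rfl } :
      (V →ₗ[ZMod 2] ZMod 2) →+ ZMod 2)
  have h' : ∑ f : V →ₗ[ZMod 2] ZMod 2, sg (f v) = if ∀ f : V →ₗ[ZMod 2] ZMod 2, f v = 0 then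
      (Fintype.card (V →ₗ[ZMod 2] ZMod 2) : ℝ) else 0 := h
  rw [h', dual_card]
  by_cases hv : v = 0
  · rw [if_pos hv, if_pos]
    intro f
    rw [hv, map_zero]
  · rw [if_neg hv, if_neg]
    intro h0
    exact hv ((Module.forall_dual_apply_eq_zero_iff (ZMod 2) v).1 h0)

theorem Fc_inv [Fintype (V →ₗ[ZMod 2] ZMod 2)] (G : V → ℝ) (v : V) :
    (Fintype.card V : ℝ) * G v = ∑ f : V →ₗ[ZMod 2] ZMod 2, Fc G f * sg (f v) := by
  unfold Fc
  simp only [sum_mul]
  rw [sum_comm]
  have h1 : ∀ w, ∑ f : V →ₗ[ZMod 2] ZMod 2, G w * sg (f w) * sg (f v) =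
      if w = v then (Fintype.card V : ℝ) * G v else 0 := by
    intro w
    have h2 : ∀ f : V →ₗ[ZMod 2] ZMod 2, G w * sg (f w) * sg (f v) = G w * sg (f (w + v)) := by
      intro f
      rw [map_add, sg_add]
      ring
    simp only [h2]
    rw [← mul_sum, dual_orth]
    have h3 : w + v = 0 ↔ w = v := by
      rw [add_eq_zero_iff_eq_neg]
      have : -v = v := by
        rw [neg_eq_iff_add_eq_zero, ← two_smul (ZMod 2) v, show (2 : ZMod 2) = 0 by decide, zero_smul]
      rw [this]
    by_cases h : w = v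
    · rw [if_pos h, if_pos (h3.2 h), h]
      ring
    · rw [if_neg h, if_neg (fun h' => h (h3.1 h')), mul_zero]
  simp only [h1]
  rw [sum_ite_eq' univ v, if_pos (mem_univ _)]

theorem Fc_parseval [Fintype (V →ₗ[ZMod 2] ZMod 2)] (G : V → ℝ) :
    ∑ f : V →ₗ[ZMod 2] ZMod 2, Fc G f ^ 2 = (Fintype.card V : ℝ) * ∑ v, G v ^ 2 := by
  have h1 : ∀ f : V →ₗ[ZMod 2] ZMod 2, Fc G f ^ 2 = ∑ v, G v * (Fc G f * sg (f v)) := by
    intro f
    conv_lhs => rw [sq]
    conv_lhs => arg 1; unfold Fc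
    rw [sum_mul]
    refine sum_congr rfl fun v _ => ?_
    ring
  simp only [h1]
  rw [sum_comm, mul_sum]
  refine sum_congr rfl fun v _ => ?_
  rw [← mul_sum, ← Fc_inv]
  ring

theorem Fc_l1 [Fintype (V →ₗ[ZMod 2] ZMod 2)] (G : V → ℝ) (hG : ∀ v, G v ^ 2 = 1) :
    ∑ f : V →ₗ[ZMod 2] ZMod 2, |Fc G f| ≤ √(Fintype.card V : ℝ) * Fintype.card V := by
  have h1 := sq_sum_le_card_mul_sum_sq (s := (univ : Finset (V →ₗ[ZMod 2] ZMod 2)))
    (f := fun f => |Fc G f|)
  simp only [sq_abs] at h1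
  rw [Fc_parseval, card_univ, dual_card] at h1
  simp only [hG, sum_const, card_univ, nsmul_eq_mul, mul_one] at h1
  have h2 : (√(Fintype.card V : ℝ) * Fintype.card V) ^ 2 =
      (Fintype.card V : ℝ) * (Fintype.card V * Fintype.card V) := by
    rw [mul_pow, Real.sq_sqrt (by positivity)]
    ring
  rw [← h2] at h1
  exact le_of_sq_le_sq h1 (by positivity)

end quad

section orth

variable {H : Type} [AddCommGroup H] [Module (ZMod 2) H]

/-- the polar form on `H × H` -/
def Bq (ω : H →ₗ[ZMod 2] H →ₗ[ZMod 2] ZMod 2) :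
    (H × H) →ₗ[ZMod 2] (H × H) →ₗ[ZMod 2] ZMod 2 :=
  ω.compl₁₂ (LinearMap.snd (ZMod 2) H H) (LinearMap.fst (ZMod 2) H H) +
    (ω.compl₁₂ (LinearMap.snd (ZMod 2) H H) (LinearMap.fst (ZMod 2) H H)).flip

theorem Bq_apply (ω : H →ₗ[ZMod 2] H →ₗ[ZMod 2] ZMod 2) (z z' : H × H) :
    Bq ω z z' = ω z.2 z'.1 + ω z'.2 z.1 := rfl

theorem om_symm {ω : H →ₗ[ZMod 2] H →ₗ[ZMod 2] ZMod 2} (alt : ∀ x, ω x x = 0) (x y : H) :
    ω x y = ω y x := by
  have h1 := alt (x + y)
  rw [map_add, map_add, LinearMap.add_apply, LinearMap.add_apply, alt, alt, zero_add,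
    add_zero] at h1
  have h2 : ω x y = -ω y x := by linear_combination h1
  rw [h2, CharTwo.neg_eq]

theorem Bq_nd {ω : H →ₗ[ZMod 2] H →ₗ[ZMod 2] ZMod 2} (alt : ∀ x, ω x x = 0)
    (nd : ∀ x, (∀ y, ω x y = 0) → x = 0) : ∀ z, (∀ z', Bq ω z z' = 0) → z = 0 := by
  intro z hz
  have h2 : z.2 = 0 := by
    apply nd
    intro v
    have := hz (v, 0)
    rw [Bq_apply, map_zero, LinearMap.zero_apply, add_zero] at this
    exact this
  have h1 : z.1 = 0 := by
    apply nd
    intro w
    have := hz (0, w)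
    rw [Bq_apply, map_zero, zero_add] at this
    rw [om_symm alt]
    exact this
  exact Prod.ext h1 h2

variable [Finite H]

/-- a maximal totally singular subspace is its own orthogonal -/
theorem orth_mem {ω : H →ₗ[ZMod 2] H →ₗ[ZMod 2] ZMod 2} (alt : ∀ x, ω x x = 0)
    (nd : ∀ x, (∀ y, ω x y = 0) → x = 0) {Λ : Submodule (ZMod 2) (H × H)} (hΛ : Mx ω Λ)
    {y : H × H} (hy : ∀ z ∈ Λ, Bq ω y z = 0) : y ∈ Λ := by
  have hsur := rE_surj (Bq_nd alt nd) Λ
  have h1 := LinearMap.finrank_range_add_finrank_ker (rE (Bq ω) Λ)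
  rw [LinearMap.range_eq_top.2 hsur, finrank_top, Module.finrank_prod] at h1
  have h2 : finrank (ZMod 2) (Λ →ₗ[ZMod 2] ZMod 2) = finrank (ZMod 2) Λ :=
    Subspace.dual_finrank_eq (K := ZMod 2) (V := Λ)
  have h3 : finrank (ZMod 2) Λ = finrank (ZMod 2) H := by
    have := hΛ.2
    rw [Module.natCard_eq_pow_finrank (K := ZMod 2), Module.natCard_eq_pow_finrank (K := ZMod 2) (V := H),
      Nat.card_zmod] at this
    exact Nat.pow_right_injective le_rfl this
  have h4 : Λ ≤ LinearMap.ker (rE (Bq ω) Λ) := by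
    intro z hz
    rw [LinearMap.mem_ker]
    refine LinearMap.ext fun z' => ?_
    rw [rE_apply, Bq_apply, ts_pol hΛ.1 hz z'.2, CharTwo.add_self_eq_zero]
    rfl
  have h5 : Λ = LinearMap.ker (rE (Bq ω) Λ) :=
    Submodule.eq_of_le_of_finrank_eq h4 (by omega)
  rw [h5, LinearMap.mem_ker]
  refine LinearMap.ext fun z' => ?_
  exact hy z' z'.2

end orth

theorem t_GAU : S_GAU := by
  intro P H _ _ _ _ _ D hD Λ hΛ
  let _ : Fintype (Λ →ₗ[ZMod 2] ZMod 2) := by
    have : Finite (Λ →ₗ[ZMod 2] ZMod 2) := DFunLike.finite _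
    exact Fintype.ofFinite _
  let b : Λ →ₗ[ZMod 2] Λ →ₗ[ZMod 2] ZMod 2 :=
    D.ω.compl₁₂ ((LinearMap.snd (ZMod 2) H H).comp Λ.subtype)
      ((LinearMap.fst (ZMod 2) H H).comp Λ.subtype)
  have hb : ∀ z z' : Λ, b z z' = D.ω (z : H × H).2 (z' : H × H).1 := fun _ _ => rfl
  obtain ⟨g, g0, hg⟩ := exists_quad b (fun z => hΛ.1 z z.2)
  have hgs : ∀ (c : ZMod 2) (v : Λ), g (c • v) = c * g v := by
    intro c v
    have h : ∀ c : ZMod 2, c = 0 ∨ c = 1 := by decide
    rcases h c with rfl | rfl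
    · rw [zero_smul, g0, zero_mul]
    · rw [one_smul, one_mul]
  -- the exponent
  have hΘ : ∀ z : P → Λ, D.Θ (fun p => (z p : H × H)) =
      ∑ p, (D.ω (z p : H × H).2 (D.T p (z p : H × H).1) + D.h p * g (z p)) +
        g (∑ p, D.h p • z p) := by
    intro z
    rw [quad_sum g0 hg]
    unfold Md.Θ
    rw [sum_add_distrib]
    have e1 : ∀ p, g (D.h p • z p) = D.h p * g (z p) := fun p => hgs _ _
    have e2 : ∀ p q, b (D.h p • z p) (D.h q • z q) =
        D.h p * D.h q * D.ω (z p : H × H).2 (z q : H × H).1 := by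
      intro p q
      rw [map_smul, map_smul, LinearMap.smul_apply, smul_eq_mul, smul_eq_mul, hb]
      ring
    simp only [e1, e2]
    have e3 := CharTwo.add_self_eq_zero (∑ p, D.h p * g (z p))
    linear_combination -e3
  -- the sum for one index and one character
  have hone : ∀ (p : P) (f : Λ →ₗ[ZMod 2] ZMod 2),
      |∑ v : Λ, sg (D.ω (v : H × H).2 (D.T p (v : H × H).1) + D.h p * g v + D.h p * f v)| ≤
        √((Fintype.card Λ : ℝ) * (Nat.card (core Λ (D.T p)) : ℝ)) := by
    intro p f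
    let c : Λ → Λ →+ ZMod 2 := fun z' =>
      { toFun := fun z => D.ω (z : H × H).2 (D.T p (z' : H × H).1) +
          D.ω (z' : H × H).2 (D.T p (z : H × H).1) + D.h p * b z z'
        map_zero' := by
          simp
        map_add' := fun z w => by
          rw [Submodule.coe_add, Prod.snd_add, Prod.fst_add, map_add, map_add, map_add, map_add,
            LinearMap.add_apply, LinearMap.add_apply]
          ring }
    have hc : ∀ z z', c z' z = D.ω (z : H × H).2 (D.T p (z' : H × H).1) +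
          D.ω (z' : H × H).2 (D.T p (z : H × H).1) + D.h p * b z z' := fun _ _ => rfl
    have h1 := gauss_sq (V := Λ)
      (φ := fun v => D.ω (v : H × H).2 (D.T p (v : H × H).1) + D.h p * g v + D.h p * f v)
      (c := c) (fun z z' => by
        rw [hg, hc]
        simp only [Submodule.coe_add, Prod.snd_add, Prod.fst_add, map_add, LinearMap.add_apply]
        ring)
    have h2 : Nat.card {z' : Λ // ∀ z, c z' z = 0} ≤ Nat.card (core Λ (D.T p)) := by
      refine Nat.card_le_card_of_injective (fun z' => ⟨(z'.1 : H × H), z'.1.2, ?_⟩) ?_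
      · show (D.T p).prodMap (D.T p) (z'.1 : H × H) ∈ Λ
        refine orth_mem hD.alt hD.nd hΛ fun z hz => ?_
        have h3 : D.ω z.2 (D.T p (z'.1 : H × H).1) + D.ω (z'.1 : H × H).2 (D.T p z.1) +
            D.h p * D.ω z.2 (z'.1 : H × H).1 = 0 := z'.2 ⟨z, hz⟩
        rw [Bq_apply]
        show D.ω (D.T p (z'.1 : H × H).2) z.1 + D.ω z.2 (D.T p (z'.1 : H × H).1) = 0
        rw [hD.adj, ts_pol hΛ.1 z'.1.2 hz]
        linear_combination h3
      · intro z z' h
        exact Subtype.ext (Subtype.ext (congrArg (fun x : core Λ (D.T p) => (x : H × H)) h))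
    refine Real.abs_le_sqrt (h1.trans ?_)
    have h3 : (Nat.card {z' : Λ // ∀ z, c z' z = 0} : ℝ) ≤ Nat.card (core Λ (D.T p)) := by
      exact_mod_cast h2
    gcongr
  have hcard : (Fintype.card Λ : ℝ) = Fintype.card H := by
    have := hΛ.2
    rw [Nat.card_eq_fintype_card, Nat.card_eq_fintype_card] at this
    exact_mod_cast this
  have hpos : (0 : ℝ) < Fintype.card H := by
    exact_mod_cast Fintype.card_pos
  -- the expansion
  set G : Λ → ℝ := fun v => sg (g v) with hG
  have hmain : (Fintype.card Λ : ℝ) * ∑ z : P → Λ, sg (D.Θ fun p => (z p : H × H)) =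
      ∑ f : Λ →ₗ[ZMod 2] ZMod 2, Fc G f * ∏ p, ∑ v : Λ,
        sg (D.ω (v : H × H).2 (D.T p (v : H × H).1) + D.h p * g v + D.h p * f v) := by
    have e1 : ∀ z : P → Λ, (Fintype.card Λ : ℝ) * sg (D.Θ fun p => (z p : H × H)) =
        ∑ f : Λ →ₗ[ZMod 2] ZMod 2, Fc G f * ∏ p,
          sg (D.ω (z p : H × H).2 (D.T p (z p : H × H).1) + D.h p * g (z p) + D.h p * f (z p)) := by
      intro z
      rw [hΘ, sg_add]
      have e2 := Fc_inv G (∑ p, D.h p • z p)
      rw [hG] at e2
      rw [mul_left_comm, e2, mul_sum]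
      refine sum_congr rfl fun f _ => ?_
      rw [map_sum, ← sg_sum, ← hG, mul_left_comm, ← sg_add, ← sum_add_distrib]
      simp only [map_smul, smul_eq_mul]
    rw [mul_sum]
    simp only [e1]
    rw [sum_comm]
    refine sum_congr rfl fun f _ => ?_
    rw [← mul_sum]
    congr 1
    have h3 := Finset.prod_univ_sum (fun _ : P => (univ : Finset Λ))
      (fun p v => sg (D.ω (v : H × H).2 (D.T p (v : H × H).1) + D.h p * g v + D.h p * f v))
    rw [Fintype.piFinset_univ] at h3
    exact h3.symm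
  have hbound : (Fintype.card Λ : ℝ) * |∑ z : P → Λ, sg (D.Θ fun p => (z p : H × H))| ≤
      √(Fintype.card Λ : ℝ) * Fintype.card Λ *
        ∏ p, √((Fintype.card Λ : ℝ) * (Nat.card (core Λ (D.T p)) : ℝ)) := by
    have h0 : (0 : ℝ) ≤ Fintype.card Λ := by positivity
    rw [← abs_of_nonneg h0, ← abs_mul, abs_of_nonneg h0, hmain]
    refine (abs_sum_le_sum_abs _ _).trans ?_
    refine le_trans ?_ (mul_le_mul_of_nonneg_right (Fc_l1 G fun v => by
      rw [hG, sq]; exact sg_sq _) (prod_nonneg fun p _ => Real.sqrt_nonneg _))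
    rw [sum_mul]
    refine sum_le_sum fun f _ => ?_
    rw [abs_mul, abs_prod]
    refine mul_le_mul_of_nonneg_left ?_ (abs_nonneg _)
    exact prod_le_prod (fun p _ => abs_nonneg _) fun p _ => hone p f
  have hsq : ∀ p, √((Fintype.card Λ : ℝ) * (Nat.card (core Λ (D.T p)) : ℝ)) =
      (Fintype.card H : ℝ) * √((Nat.card (core Λ (D.T p)) : ℝ) / (Fintype.card H : ℝ)) := by
    intro p
    rw [hcard]
    have e1 : (Fintype.card H : ℝ) * (Nat.card (core Λ (D.T p)) : ℝ) =
        (Fintype.card H : ℝ) ^ 2 * ((Nat.card (core Λ (D.T p)) : ℝ) / (Fintype.card H : ℝ)) := by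
      field_simp
    rw [e1, Real.sqrt_mul (by positivity), Real.sqrt_sq hpos.le]
  simp only [hsq, prod_mul_distrib, prod_const, card_univ] at hbound
  rw [hcard] at hbound
  have h5 : √(Fintype.card H : ℝ) * Fintype.card H * ((Fintype.card H : ℝ) ^ Fintype.card P *
      ∏ p, √((Nat.card (core Λ (D.T p)) : ℝ) / (Fintype.card H : ℝ))) =
      (Fintype.card H : ℝ) * (√(Fintype.card H : ℝ) * (Fintype.card H : ℝ) ^ Fintype.card P *
      ∏ p, √((Nat.card (core Λ (D.T p)) : ℝ) / (Fintype.card H : ℝ))) := by ring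
  rw [h5] at hbound
  exact le_of_mul_le_mul_left hbound hpos

end Q257.MX
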