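import Pool.Agent.Q257.MX.Sg

/-!
# Project MX, job MAX: reduction to maximal totally singular subspaces
-/

set_option autoImplicit false

namespace Q257.MX

open Finset Module Q44.MX
open scoped Classical

section

variable {H : Type} [AddCommGroup H] [Module (ZMod 2) H]

/-- the bilinear forms on a subspace -/
abbrev Bf (E : Submodule (ZMod 2) H) : Type := E →ₗ[ZMod 2] E →ₗ[ZMod 2] ZMod 2

/-- alternating forms -/
def Al {E : Submodule (ZMod 2) H} (b : Bf E) : Prop := ∀ e, b e e = 0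

/-- the subspace given by a form on `E` -/
def Lb (ω : H →ₗ[ZMod 2] H →ₗ[ZMod 2] ZMod 2) (E : Submodule (ZMod 2) H)
    (b : E →ₗ[ZMod 2] E →ₗ[ZMod 2] ZMod 2) : Submodule (ZMod 2) (H × H) where
  carrier := {z | ∃ h : z.1 ∈ E, ∀ e : E, ω z.2 e = b ⟨z.1, h⟩ e}
  zero_mem' := ⟨E.zero_mem, fun e => by
    have : (⟨(0 : H × H).1, E.zero_mem⟩ : E) = 0 := rfl
    rw [this, map_zero]
    simp⟩
  add_mem' := by
    rintro z z' ⟨h, hz⟩ ⟨h', hz'⟩
    refine ⟨E.add_mem h h', fun e => ?_⟩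
    have : (⟨(z + z').1, E.add_mem h h'⟩ : E) = ⟨z.1, h⟩ + ⟨z'.1, h'⟩ := rfl
    rw [this, map_add, Prod.snd_add, map_add, LinearMap.add_apply, LinearMap.add_apply, hz, hz']
  smul_mem' := by
    rintro c z ⟨h, hz⟩
    refine ⟨E.smul_mem c h, fun e => ?_⟩
    have : (⟨(c • z).1, E.smul_mem c h⟩ : E) = c • ⟨z.1, h⟩ := rfl
    rw [this, map_smul, Prod.smul_snd, map_smul, LinearMap.smul_apply, LinearMap.smul_apply, hz]

theorem mem_Lb {ω : H →ₗ[ZMod 2] H →ₗ[ZMod 2] ZMod 2} {E : Submodule (ZMod 2) H}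
    {b : E →ₗ[ZMod 2] E →ₗ[ZMod 2] ZMod 2} {z : H × H} :
    z ∈ Lb ω E b ↔ ∃ h : z.1 ∈ E, ∀ e : E, ω z.2 e = b ⟨z.1, h⟩ e := Iff.rfl

theorem La_add {ω : H →ₗ[ZMod 2] H →ₗ[ZMod 2] ZMod 2} {E : Submodule (ZMod 2) H} {x w w' : H}
    {b b' : Bf E} (h : (x, w) ∈ Lb ω E b) (h' : (x, w') ∈ Lb ω E b') :
    (x, w + w') ∈ Lb ω E (b + b') := by
  rw [mem_Lb] at *
  obtain ⟨h1, h2⟩ := h
  obtain ⟨_, h4⟩ := h'
  refine ⟨h1, fun e => ?_⟩
  have h5 := h2 e
  have h6 := h4 e
  calc ω (w + w') e = ω w e + ω w' e := by rw [map_add, LinearMap.add_apply]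
    _ = b ⟨x, h1⟩ e + b' ⟨x, h1⟩ e := by rw [← h5, ← h6]
    _ = (b + b') ⟨x, h1⟩ e := rfl

theorem La_sub {ω : H →ₗ[ZMod 2] H →ₗ[ZMod 2] ZMod 2} {E : Submodule (ZMod 2) H} {x w w' : H}
    {b b' : Bf E} (h : (x, w) ∈ Lb ω E b) (h' : (x, w') ∈ Lb ω E b') :
    (x, w - w') ∈ Lb ω E (b - b') := by
  rw [mem_Lb] at *
  obtain ⟨h1, h2⟩ := h
  obtain ⟨_, h4⟩ := h'
  refine ⟨h1, fun e => ?_⟩
  have h5 := h2 e
  have h6 := h4 e
  calc ω (w - w') e = ω w e - ω w' e := by rw [map_sub, LinearMap.sub_apply]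
    _ = b ⟨x, h1⟩ e - b' ⟨x, h1⟩ e := by rw [← h5, ← h6]
    _ = (b - b') ⟨x, h1⟩ e := rfl

/-- the form as a map to the dual of `E` -/
def rE (ω : H →ₗ[ZMod 2] H →ₗ[ZMod 2] ZMod 2) (E : Submodule (ZMod 2) H) :
    H →ₗ[ZMod 2] (E →ₗ[ZMod 2] ZMod 2) :=
  (LinearMap.lcomp (ZMod 2) (ZMod 2) E.subtype).comp ω

theorem rE_apply (ω : H →ₗ[ZMod 2] H →ₗ[ZMod 2] ZMod 2) (E : Submodule (ZMod 2) H) (w : H) (e : E) :
    rE ω E w e = ω w e := rfl

theorem rE_surj [Finite H] {ω : H →ₗ[ZMod 2] H →ₗ[ZMod 2] ZMod 2}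
    (nd : ∀ x, (∀ y, ω x y = 0) → x = 0) (E : Submodule (ZMod 2) H) :
    Function.Surjective (rE ω E) := by
  intro f
  obtain ⟨g, hg⟩ := LinearMap.exists_extend f
  have hinj : Function.Injective ω := by
    rw [injective_iff_map_eq_zero]
    intro x hx
    exact nd x fun y => by rw [hx]; rfl
  have hsur : Function.Surjective ω :=
    (LinearMap.injective_iff_surjective_of_finrank_eq_finrank
      (Subspace.dual_finrank_eq (K := ZMod 2) (V := H)).symm).1 hinj
  obtain ⟨w, hw⟩ := hsur g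
  refine ⟨w, ?_⟩
  rw [← hg, ← hw]
  rfl

theorem Lb_proj [Finite H] {ω : H →ₗ[ZMod 2] H →ₗ[ZMod 2] ZMod 2}
    (nd : ∀ x, (∀ y, ω x y = 0) → x = 0) (E : Submodule (ZMod 2) H)
    (b : E →ₗ[ZMod 2] E →ₗ[ZMod 2] ZMod 2) (e : E) : ∃ w, ((e : H), w) ∈ Lb ω E b := by
  obtain ⟨w, hw⟩ := rE_surj nd E (b e)
  refine ⟨w, e.2, fun e' => ?_⟩
  exact LinearMap.congr_fun hw e'

theorem Lb_card [Finite H] {ω : H →ₗ[ZMod 2] H →ₗ[ZMod 2] ZMod 2}
    (nd : ∀ x, (∀ y, ω x y = 0) → x = 0) (E : Submodule (ZMod 2) H)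
    (b : E →ₗ[ZMod 2] E →ₗ[ZMod 2] ZMod 2) : Nat.card (Lb ω E b) = Nat.card H := by
  set Φ : (E × H) →ₗ[ZMod 2] (E →ₗ[ZMod 2] ZMod 2) :=
    (rE ω E).comp (LinearMap.snd _ _ _) - b.comp (LinearMap.fst _ _ _) with hΦ
  have hΦa : ∀ z : E × H, ∀ e : E, Φ z e = ω z.2 e - b z.1 e := fun z e => rfl
  have hsur : Function.Surjective Φ := by
    intro f
    obtain ⟨w, hw⟩ := rE_surj nd E f
    refine ⟨(0, w), ?_⟩
    rw [hΦ, LinearMap.sub_apply, LinearMap.comp_apply, LinearMap.comp_apply, LinearMap.fst_apply,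
      LinearMap.snd_apply, map_zero, sub_zero, hw]
  have h1 := LinearMap.finrank_range_add_finrank_ker Φ
  rw [LinearMap.range_eq_top.2 hsur, finrank_top, Module.finrank_prod] at h1
  have h2 : finrank (ZMod 2) (E →ₗ[ZMod 2] ZMod 2) = finrank (ZMod 2) E :=
    Subspace.dual_finrank_eq (K := ZMod 2) (V := E)
  have h3 : finrank (ZMod 2) (LinearMap.ker Φ) = finrank (ZMod 2) H := by omega
  have e1 : Lb ω E b ≃ LinearMap.ker Φ :=
    { toFun := fun z => ⟨(⟨z.1.1, z.2.1⟩, z.1.2), by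
        rw [LinearMap.mem_ker]
        refine LinearMap.ext fun e => ?_
        rw [hΦa, z.2.2 e, sub_self]
        rfl⟩
      invFun := fun z => ⟨((z.1.1 : H), z.1.2), z.1.1.2, fun e => by
        have h4 := LinearMap.congr_fun (LinearMap.mem_ker.1 z.2) e
        rw [hΦa] at h4
        exact sub_eq_zero.1 h4⟩
      left_inv := fun z => rfl
      right_inv := fun z => rfl }
  rw [Nat.card_congr e1, Module.natCard_eq_pow_finrank (K := ZMod 2), h3,
    ← Module.natCard_eq_pow_finrank (K := ZMod 2)]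

theorem Lb_Mx [Finite H] {ω : H →ₗ[ZMod 2] H →ₗ[ZMod 2] ZMod 2}
    (nd : ∀ x, (∀ y, ω x y = 0) → x = 0) (E : Submodule (ZMod 2) H) {b : Bf E} (hb : Al b) :
    Mx ω (Lb ω E b) := by
  refine ⟨?_, Lb_card nd E b⟩
  rintro z ⟨h, hz⟩
  rw [hz ⟨z.1, h⟩]
  exact hb _

theorem Lb_inj [Finite H] {ω : H →ₗ[ZMod 2] H →ₗ[ZMod 2] ZMod 2}
    (nd : ∀ x, (∀ y, ω x y = 0) → x = 0) {s t : (E : Submodule (ZMod 2) H) × Bf E}
    (h : Lb ω s.1 s.2 = Lb ω t.1 t.2) : s = t := by
  obtain ⟨E, b⟩ := s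
  obtain ⟨E', b'⟩ := t
  have hE : E = E' := by
    apply le_antisymm
    · intro e he
      obtain ⟨w, hw⟩ := Lb_proj nd E b ⟨e, he⟩
      rw [show Lb ω E b = Lb ω E' b' from h] at hw
      exact hw.1
    · intro e he
      obtain ⟨w, hw⟩ := Lb_proj nd E' b' ⟨e, he⟩
      rw [show Lb ω E' b' = Lb ω E b from h.symm] at hw
      exact hw.1
  subst hE
  have hb : b = b' := by
    refine LinearMap.ext fun e => LinearMap.ext fun e' => ?_
    obtain ⟨w, hw⟩ := Lb_proj nd E b e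
    have hw' := hw
    rw [show Lb ω E b = Lb ω E b' from h] at hw'
    obtain ⟨_, h1⟩ := mem_Lb.1 hw
    obtain ⟨_, h2⟩ := mem_Lb.1 hw'
    exact (h1 e').symm.trans (h2 e')
  rw [hb]

/-- polarization on a totally singular subspace -/
theorem ts_pol {ω : H →ₗ[ZMod 2] H →ₗ[ZMod 2] ZMod 2} {Λ : Submodule (ZMod 2) (H × H)}
    (hΛ : ∀ z ∈ Λ, ω z.2 z.1 = 0) {z z' : H × H} (hz : z ∈ Λ) (hz' : z' ∈ Λ) :
    ω z.2 z'.1 = ω z'.2 z.1 := by
  have h1 := hΛ _ (Λ.add_mem hz hz')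
  rw [Prod.snd_add, Prod.fst_add, map_add, map_add, LinearMap.add_apply, LinearMap.add_apply,
    hΛ z hz, hΛ z' hz', zero_add, add_zero] at h1
  have h2 : ω z.2 z'.1 = -ω z'.2 z.1 := by linear_combination h1
  rw [h2, CharTwo.neg_eq]

/-- the form of a totally singular subspace -/
theorem exists_form {ω : H →ₗ[ZMod 2] H →ₗ[ZMod 2] ZMod 2} {Λ : Submodule (ZMod 2) (H × H)}
    (hΛ : ∀ z ∈ Λ, ω z.2 z.1 = 0) {E : Submodule (ZMod 2) H}
    (hE : Λ.map (LinearMap.fst (ZMod 2) H H) = E) : ∃ b : Bf E, Al b ∧ Λ ≤ Lb ω E b := by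
  have hm : ∀ z : Λ, (z : H × H).1 ∈ E := by
    intro z
    rw [← hE]
    exact ⟨z, z.2, rfl⟩
  let π : Λ →ₗ[ZMod 2] E := ((LinearMap.fst (ZMod 2) H H).comp Λ.subtype).codRestrict E hm
  have hπ : Function.Surjective π := by
    rintro ⟨e, he⟩
    have he' := he
    rw [← hE] at he'
    obtain ⟨z, hz, hze⟩ := he'
    exact ⟨⟨z, hz⟩, Subtype.ext hze⟩
  obtain ⟨σ, hσ⟩ := π.exists_rightInverse_of_surjective (LinearMap.range_eq_top.2 hπ)
  have hσ1 : ∀ e : E, ((σ e : Λ) : H × H).1 = e := by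
    intro e
    exact congrArg Subtype.val (LinearMap.congr_fun hσ e)
  let b : E →ₗ[ZMod 2] E →ₗ[ZMod 2] ZMod 2 :=
    (rE ω E).comp (((LinearMap.snd (ZMod 2) H H).comp Λ.subtype).comp σ)
  have hb : ∀ e e', b e e' = ω ((σ e : Λ) : H × H).2 e' := fun _ _ => rfl
  refine ⟨b, ?_, ?_⟩
  · intro e
    rw [hb]
    have := hΛ _ (σ e).2
    rwa [hσ1 e] at this
  · intro z hz
    refine ⟨hm ⟨z, hz⟩, fun e => ?_⟩
    show ω z.2 e = b ⟨z.1, _⟩ e
    rw [hb]
    set s : H × H := ((σ ⟨z.1, hm ⟨z, hz⟩⟩ : Λ) : H × H) with hs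
    have hs1 : s.1 = z.1 := hσ1 ⟨z.1, hm ⟨z, hz⟩⟩
    have h1 := ts_pol hΛ (Λ.sub_mem hz (σ ⟨z.1, hm ⟨z, hz⟩⟩).2) (σ e).2
    rw [← hs, hσ1 e, Prod.fst_sub, hs1, sub_self, map_zero, Prod.snd_sub, map_sub,
      LinearMap.sub_apply] at h1
    exact sub_eq_zero.1 h1

variable {P : Type}

/-- the span of a family with `Ts` is totally singular -/
theorem span_ts {ω : H →ₗ[ZMod 2] H →ₗ[ZMod 2] ZMod 2} {z : P → H × H} (h : Ts ω z) :
    ∀ v ∈ Submodule.span (ZMod 2) (Set.range z), ω v.2 v.1 = 0 := by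
  have h1 : ∀ p, ∀ v ∈ Submodule.span (ZMod 2) (Set.range z), ω (z p).2 v.1 = ω v.2 (z p).1 := by
    intro p v hv
    induction hv using Submodule.span_induction with
    | mem x hx =>
      obtain ⟨q, rfl⟩ := hx
      exact h.2 p q
    | zero => simp
    | add x y _ _ hx hy =>
      rw [Prod.fst_add, Prod.snd_add, map_add, map_add, LinearMap.add_apply, hx, hy]
    | smul c x _ hx =>
      rw [Prod.smul_fst, Prod.smul_snd, map_smul, map_smul, LinearMap.smul_apply, hx]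
  have h2 : ∀ u ∈ Submodule.span (ZMod 2) (Set.range z), ∀ v ∈ Submodule.span (ZMod 2) (Set.range z),
      ω u.2 v.1 = ω v.2 u.1 := by
    intro u hu v hv
    induction hu using Submodule.span_induction with
    | mem x hx =>
      obtain ⟨q, rfl⟩ := hx
      exact h1 q v hv
    | zero => simp
    | add x y _ _ hx hy =>
      rw [Prod.fst_add, Prod.snd_add, map_add, map_add, LinearMap.add_apply, hx, hy]
    | smul c x _ hx =>
      rw [Prod.smul_fst, Prod.smul_snd, map_smul, map_smul, LinearMap.smul_apply, hx]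
  intro v hv
  induction hv using Submodule.span_induction with
  | mem x hx =>
    obtain ⟨q, rfl⟩ := hx
    exact h.1 q
  | zero => simp
  | add x y hx' hy' hx hy =>
    rw [Prod.fst_add, Prod.snd_add, map_add, map_add, LinearMap.add_apply, LinearMap.add_apply,
      hx, hy, h2 x hx' y hy', zero_add, add_zero, CharTwo.add_self_eq_zero]
  | smul c x _ hx =>
    rw [Prod.smul_fst, Prod.smul_snd, map_smul, map_smul, LinearMap.smul_apply, hx, smul_zero,
      smul_zero]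

/-- a family in a subspace of a form satisfies `Ts` -/
theorem La_ts {ω : H →ₗ[ZMod 2] H →ₗ[ZMod 2] ZMod 2} {x W : P → H} {E : Submodule (ZMod 2) H}
    {b : Bf E} (hA : Al b) (hb : ∀ p, (x p, W p) ∈ Lb ω E b) : Ts ω (fun p => (x p, W p)) := by
  have hsym : ∀ e e', b e e' = b e' e := by
    intro e e'
    have h1 := hA (e + e')
    rw [map_add, map_add, LinearMap.add_apply, LinearMap.add_apply, hA e, hA e', zero_add,
      add_zero] at h1
    have h2 : b e e' = -b e' e := by linear_combination h1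
    rw [h2, CharTwo.neg_eq]
  constructor
  · intro p
    obtain ⟨h1, h2⟩ := mem_Lb.1 (hb p)
    exact (h2 ⟨x p, h1⟩).trans (hA _)
  · intro p q
    obtain ⟨h1, h2⟩ := mem_Lb.1 (hb p)
    obtain ⟨h3, h4⟩ := mem_Lb.1 (hb q)
    exact (h2 ⟨x q, h3⟩).trans ((hsym _ _).trans (h4 ⟨x p, h1⟩).symm)

/-- exactly one form for a family with `Ts` -/
theorem ts_form {ω : H →ₗ[ZMod 2] H →ₗ[ZMod 2] ZMod 2} {x W : P → H}
    (h : Ts ω (fun p => (x p, W p))) :
      ∃ b : Bf (Submodule.span (ZMod 2) (Set.range x)), Al b ∧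
        (∀ p, (x p, W p) ∈ Lb ω (Submodule.span (ZMod 2) (Set.range x)) b) ∧
        ∀ b' : Bf (Submodule.span (ZMod 2) (Set.range x)),
          (∀ p, (x p, W p) ∈ Lb ω (Submodule.span (ZMod 2) (Set.range x)) b') → b' = b := by
  set E := Submodule.span (ZMod 2) (Set.range x) with hE
  have h1 := span_ts h
  have h2 : (Submodule.span (ZMod 2) (Set.range fun p => (x p, W p))).map
      (LinearMap.fst (ZMod 2) H H) = E := by
    rw [Submodule.map_span, ← Set.range_comp]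
    rfl
  obtain ⟨b, hA, hb⟩ := exists_form h1 h2
  refine ⟨b, hA, fun p => hb (Submodule.subset_span ⟨p, rfl⟩), fun b' hb' => ?_⟩
  refine LinearMap.ext fun e => LinearMap.ext fun e' => ?_
  have h3 : Submodule.span (ZMod 2) (Set.range fun p => (x p, W p)) ≤ Lb ω E b' := by
    rw [Submodule.span_le]
    rintro _ ⟨p, rfl⟩
    exact hb' p
  have he : (e : H) ∈ (Submodule.span (ZMod 2) (Set.range fun p => (x p, W p))).map
      (LinearMap.fst (ZMod 2) H H) := by
    rw [h2]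
    exact e.2
  obtain ⟨z, hz, hze⟩ := he
  obtain ⟨h4, h5⟩ := mem_Lb.1 (hb hz)
  obtain ⟨h6, h7⟩ := mem_Lb.1 (h3 hz)
  have h9 := h5 e'
  have h10 := h7 e'
  rw [show (⟨z.1, h4⟩ : E) = e from Subtype.ext hze] at h9
  rw [show (⟨z.1, h6⟩ : E) = e from Subtype.ext hze] at h10
  rw [← h9, ← h10]

end

section

variable {P H : Type} [Fintype P] [LinearOrder P] [AddCommGroup H] [Module (ZMod 2) H]

/-- the exponent is linear in the second components -/
noncomputable def Θl (D : Md P H) (x : P → H) : (P → H) →+ ZMod 2 where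
  toFun W := D.Θ fun p => (x p, W p)
  map_zero' := by
    unfold Md.Θ
    simp
  map_add' W W' := by
    unfold Md.Θ
    simp only [Pi.add_apply, map_add, LinearMap.add_apply, mul_add, sum_add_distrib]
    ring

theorem Θl_apply (D : Md P H) (x W : P → H) : Θl D x W = D.Θ fun p => (x p, W p) := rfl

variable [Fintype H]

/-- sums of signs over a subgroup are not negative -/
theorem sum_nonneg_grp {A : Type} [AddCommGroup A] [Fintype A] (N : A → Prop) [DecidablePred N]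
    (θ : A → ZMod 2)
    (hadd : ∀ a b, N a → N b → N (a + b) ∧ θ (a + b) = θ a + θ b)
    (hsub : ∀ a b, N a → N b → N (a - b)) :
    0 ≤ ∑ a, if N a then sg (θ a) else 0 := by
  by_cases h : ∃ n, N n ∧ θ n = 1
  · obtain ⟨n, hn, hn1⟩ := h
    have h1 : ∑ a, (if N a then sg (θ a) else 0) = ∑ a, if N (a + n) then sg (θ (a + n)) else 0 :=
      (Equiv.sum_comp (Equiv.addRight n) (fun a => if N a then sg (θ a) else 0)).symm
    have h2 : ∑ a, (if N (a + n) then sg (θ (a + n)) else 0) =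
        -∑ a, if N a then sg (θ a) else 0 := by
      rw [← sum_neg_distrib]
      refine sum_congr rfl fun a _ => ?_
      by_cases ha : N a
      · rw [if_pos ha, if_pos (hadd a n ha hn).1, (hadd a n ha hn).2, hn1, sg_add, sg_one]
        ring
      · rw [if_neg ha, if_neg, neg_zero]
        intro h3
        apply ha
        have := hsub _ _ h3 hn
        rwa [add_sub_cancel_right] at this
    linarith
  · push Not at h
    refine sum_nonneg fun a _ => ?_
    by_cases ha : N a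
    · have h2 : ∀ c : ZMod 2, c ≠ 1 → c = 0 := by decide
      rw [if_pos ha, h2 _ (h a ha), sg_zero]
      exact zero_le_one
    · rw [if_neg ha]

/-- the sum for a given first component and a given subspace is not negative -/
theorem S_nonneg (D : Md P H) (x : P → H) (E : Submodule (ZMod 2) H) [Fintype (Bf E)] :
    0 ≤ ∑ b : Bf E, ∑ W : P → H, if (Al b ∧ ∀ p, (x p, W p) ∈ Lb D.ω E b)
      then sg (D.Θ fun p => (x p, W p)) else 0 := by
  rw [← Fintype.sum_prod_type' (f := fun (b : Bf E) (W : P → H) =>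
      if (Al b ∧ ∀ p, (x p, W p) ∈ Lb D.ω E b) then sg (D.Θ fun p => (x p, W p)) else 0)]
  refine sum_nonneg_grp (A := Bf E × (P → H)) (fun n => Al n.1 ∧ ∀ p, (x p, n.2 p) ∈ Lb D.ω E n.1)
    (fun n => Θl D x n.2) ?_ ?_
  · intro a b ha hb
    refine ⟨⟨fun e => ?_, fun p => La_add (ha.2 p) (hb.2 p)⟩, (Θl D x).map_add a.2 b.2⟩
    calc (a + b).1 e e = a.1 e e + b.1 e e := rfl
      _ = 0 := by rw [ha.1 e, hb.1 e, add_zero]
  · intro a b ha hb
    refine ⟨fun e => ?_, fun p => La_sub (ha.2 p) (hb.2 p)⟩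
    calc (a - b).1 e e = a.1 e e - b.1 e e := rfl
      _ = 0 := by rw [ha.1 e, hb.1 e, sub_zero]

/-- the sum over the families in a subspace -/
theorem sum_fam (D : Md P H) (Λ : Submodule (ZMod 2) (H × H)) :
    ∑ z : P → Λ, sg (D.Θ fun p => (z p : H × H)) =
      ∑ x : P → H, ∑ W : P → H, if (∀ p, (x p, W p) ∈ Λ) then sg (D.Θ fun p => (x p, W p)) else 0 := by
  rw [← Fintype.sum_prod_type' (f := fun (x W : P → H) =>
    if (∀ p, (x p, W p) ∈ Λ) then sg (D.Θ fun p => (x p, W p)) else 0)]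
  rw [← Equiv.sum_comp (Equiv.arrowProdEquivProdArrow P (fun _ => H) (fun _ => H))]
  have h3 : ∀ z : P → H × H, (if (∀ p, (((Equiv.arrowProdEquivProdArrow P (fun _ => H)
      (fun _ => H)) z).1 p, ((Equiv.arrowProdEquivProdArrow P (fun _ => H)
      (fun _ => H)) z).2 p) ∈ Λ) then sg (D.Θ fun p => (((Equiv.arrowProdEquivProdArrow P (fun _ => H)
      (fun _ => H)) z).1 p, ((Equiv.arrowProdEquivProdArrow P (fun _ => H)
      (fun _ => H)) z).2 p)) else 0) = if (∀ p, z p ∈ Λ) then sg (D.Θ z) else 0 := fun z => rfl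
  simp only [h3]
  rw [← Finset.sum_filter]
  symm
  refine Finset.sum_bij' (fun z hz p => ⟨z p, (mem_filter.1 hz).2 p⟩)
    (fun z _ p => (z p : H × H)) ?_ ?_ ?_ ?_ ?_
  · intro z hz; exact mem_univ _
  · intro z hz; rw [mem_filter]; exact ⟨mem_univ _, fun p => (z p).2⟩
  · intro z hz; rfl
  · intro z hz; rfl
  · intro z hz; rfl

end

theorem t_MAX : S_MAX := by
  intro P H _ _ _ _ _ D hD 𝓜 h𝓜
  have : ∀ E : Submodule (ZMod 2) H, Finite (Bf E) := by
    intro E
    have : Finite (E →ₗ[ZMod 2] ZMod 2) := DFunLike.finite _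
    exact DFunLike.finite _
  let _ : ∀ E : Submodule (ZMod 2) H, Fintype (Bf E) := fun E => Fintype.ofFinite _
  let _ : Fintype (Submodule (ZMod 2) H) := Fintype.ofFinite _
  -- the lower bound for the right hand side
  have h1 : ∑ s ∈ (univ : Finset ((E : Submodule (ZMod 2) H) × Bf E)).filter (fun s => Al s.2),
      |∑ z : P → (Lb D.ω s.1 s.2), sg (D.Θ fun p => (z p : H × H))| ≤
      ∑ Λ ∈ 𝓜, |∑ z : P → Λ, sg (D.Θ fun p => (z p : H × H))| := by
    rw [← Finset.sum_image (s := (univ : Finset ((E : Submodule (ZMod 2) H) × Bf E)).filter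
        (fun s => Al s.2))
      (g := fun s : (E : Submodule (ZMod 2) H) × Bf E => Lb D.ω s.1 s.2)
      (f := fun Λ : Submodule (ZMod 2) (H × H) =>
        |∑ z : P → Λ, sg (D.Θ fun p => (z p : H × H))|)]
    · refine Finset.sum_le_sum_of_subset_of_nonneg ?_ fun _ _ _ => abs_nonneg _
      intro Λ hΛ
      obtain ⟨s, hs, rfl⟩ := mem_image.1 hΛ
      rw [h𝓜]
      exact Lb_Mx hD.nd s.1 (mem_filter.1 hs).2
    · intro s _ t _ hst
      exact Lb_inj hD.nd hst
  refine le_trans ?_ h1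
  have h3 : ∑ x : P → H, ∑ E : Submodule (ZMod 2) H, ∑ b : Bf E, ∑ W : P → H,
      (if (Al b ∧ ∀ p, (x p, W p) ∈ Lb D.ω E b) then sg (D.Θ fun p => (x p, W p)) else 0) ≤
      ∑ s ∈ (univ : Finset ((E : Submodule (ZMod 2) H) × Bf E)).filter (fun s => Al s.2),
      |∑ z : P → (Lb D.ω s.1 s.2), sg (D.Θ fun p => (z p : H × H))| := by
    rw [sum_comm, sum_filter, Fintype.sum_sigma]
    refine sum_le_sum fun E _ => ?_
    rw [sum_comm]
    refine sum_le_sum fun b _ => ?_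
    by_cases hb : Al b
    · rw [if_pos hb, sum_fam]
      refine le_trans (le_of_eq ?_) (le_abs_self _)
      refine sum_congr rfl fun x _ => sum_congr rfl fun W _ => ?_
      simp only [hb, true_and]
    · rw [if_neg hb]
      refine le_of_eq (sum_eq_zero fun x _ => sum_eq_zero fun W _ => ?_)
      rw [if_neg]
      exact fun h => hb h.1
  refine le_trans ?_ h3
  -- the left hand side
  have h4 : (∑ z : P → H × H, if Ts D.ω z then sg (D.Θ z) else 0) =
      ∑ x : P → H, ∑ W : P → H, if Ts D.ω (fun p => (x p, W p)) then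
        sg (D.Θ fun p => (x p, W p)) else 0 := by
    rw [← Fintype.sum_prod_type' (f := fun (x W : P → H) =>
      if Ts D.ω (fun p => (x p, W p)) then sg (D.Θ fun p => (x p, W p)) else 0)]
    rw [← Equiv.sum_comp (Equiv.arrowProdEquivProdArrow P (fun _ => H) (fun _ => H))]
    rfl
  rw [h4]
  refine sum_le_sum fun x _ => ?_
  have h5 : (∑ W : P → H, if Ts D.ω (fun p => (x p, W p)) then
        sg (D.Θ fun p => (x p, W p)) else 0) =
      ∑ b : Bf (Submodule.span (ZMod 2) (Set.range x)), ∑ W : P → H,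
      (if (Al b ∧ ∀ p, (x p, W p) ∈ Lb D.ω (Submodule.span (ZMod 2) (Set.range x)) b)
        then sg (D.Θ fun p => (x p, W p)) else 0) := by
    rw [sum_comm]
    refine sum_congr rfl fun W _ => ?_
    by_cases h : Ts D.ω (fun p => (x p, W p))
    · rw [if_pos h]
      obtain ⟨b, hA, hb, hb'⟩ := ts_form h
      rw [Finset.sum_eq_single b, if_pos ⟨hA, hb⟩]
      · intro b' _ hne
        rw [if_neg]
        intro h'
        exact hne (hb' b' h'.2)
      · intro h'; exact absurd (mem_univ _) h'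
    · rw [if_neg h]
      symm
      refine sum_eq_zero fun b _ => ?_
      rw [if_neg]
      intro hb
      exact h (La_ts hb.1 hb.2)
  rw [h5]
  exact Finset.single_le_sum (f := fun E : Submodule (ZMod 2) H => ∑ b : Bf E, ∑ W : P → H,
      (if (Al b ∧ ∀ p, (x p, W p) ∈ Lb D.ω E b) then sg (D.Θ fun p => (x p, W p)) else 0))
      (fun E _ => S_nonneg D x E) (mem_univ _)

end Q257.MX
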