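import Pool.Agent.Q44.MX.Stm

/-!
# Project MX, job MOM: the moments
-/

set_option autoImplicit false

namespace Q257.MX

open Finset Module Q44.MX
open scoped Classical

section pow

variable {P V : Type} [Fintype P] [LinearOrder P] [AddCommGroup V] [Module (ZMod 2) V]

omit [Fintype P] [LinearOrder P] in
theorem pwf_apply (ω : V →ₗ[ZMod 2] V →ₗ[ZMod 2] ZMod 2) (j : ℕ) (x y : Fin j → V) :
    pwf ω j x y = ∑ i, ω (x i) (y i) := by
  unfold pwf
  rw [LinearMap.sum_apply, LinearMap.sum_apply]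
  rfl

theorem pw_row (D : Md P V) (j : ℕ) (a : Sym2 P → ZMod 2) (x : P → Fin j → V) (p : P) (i : Fin j) :
    (D.pw j).row a x p i = D.row a (fun q => x q i) p := by
  show (∑ q, a s(p, q) • x q + ∑ q ∈ univ.filter (fun q => q < p), (D.h p * D.h q) • x q +
    pwT (D.T p) j (x p)) i = ∑ q, a s(p, q) • x q i +
      ∑ q ∈ univ.filter (fun q => q < p), (D.h p * D.h q) • x q i + D.T p (x p i)
  rw [Pi.add_apply, Pi.add_apply, Finset.sum_apply, Finset.sum_apply]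
  rfl

end pow

theorem t_POW : S_POW := by
  intro P V _ _ _ _ _ D hD j
  refine ⟨⟨?_, ?_, ?_⟩, ?_⟩
  · intro x
    show pwf D.ω j x x = 0
    rw [pwf_apply]
    exact sum_eq_zero fun i _ => hD.alt _
  · intro x hx
    funext i
    apply hD.nd
    intro y
    have h1 : pwf D.ω j x (Pi.single i y) = 0 := hx (Pi.single i y)
    rw [pwf_apply, Finset.sum_eq_single i] at h1
    · rwa [Pi.single_eq_same] at h1
    · intro k _ hk
      rw [Pi.single_eq_of_ne hk, map_zero]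
    · intro h; exact absurd (mem_univ _) h
  · intro p x y
    show pwf D.ω j (pwT (D.T p) j x) y = pwf D.ω j x (pwT (D.T p) j y) + D.h p * pwf D.ω j x y
    rw [pwf_apply, pwf_apply, pwf_apply, mul_sum, ← sum_add_distrib]
    exact sum_congr rfl fun i _ => hD.adj p (x i) (y i)
  · intro a
    have hmem : ∀ x : P → Fin j → V, x ∈ (D.pw j).K a ↔ ∀ i, (fun p => x p i) ∈ D.K a := by
      intro x
      have h1 : x ∈ (D.pw j).K a ↔ (D.pw j).row a x = 0 := LinearMap.mem_ker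
      have h2 : ∀ i, (fun p => x p i) ∈ D.K a ↔ D.row a (fun p => x p i) = 0 :=
        fun i => LinearMap.mem_ker
      rw [h1]
      simp only [h2]
      constructor
      · intro h i
        funext p
        rw [← pw_row, h]
        rfl
      · intro h
        funext p i
        rw [pw_row, h i]
        rfl
    let e : (D.pw j).K a ≃ (Fin j → D.K a) :=
      { toFun := fun x i => ⟨fun p => x.1 p i, (hmem x.1).1 x.2 i⟩
        invFun := fun y => ⟨fun p i => (y i).1 p, (hmem _).2 fun i => (y i).2⟩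
        left_inv := fun x => rfl
        right_inv := fun y => rfl }
    rw [Nat.card_congr e, Nat.card_fun, Nat.card_eq_fintype_card (α := Fin j), Fintype.card_fin]

section mom

variable {V : Type} [AddCommGroup V] [Module (ZMod 2) V] [Finite V]

omit [Finite V] in
/-- a scalar does not change the core -/
theorem core_add (j : ℕ) (Λ : Submodule (ZMod 2) ((Fin j → V) × (Fin j → V)))
    (X : Module.End (ZMod 2) V) (e : ZMod 2) :
    core Λ (pwT (X + e • 1) j) = core Λ (pwT X j) := by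
  ext z
  have h1 : (pwT (X + e • 1) j).prodMap (pwT (X + e • 1) j) z =
      (pwT X j).prodMap (pwT X j) z + e • z := by
    refine Prod.ext ?_ ?_
    · funext i
      rfl
    · funext i
      rfl
  show (z ∈ Λ ∧ (pwT (X + e • 1) j).prodMap (pwT (X + e • 1) j) z ∈ Λ) ↔
    (z ∈ Λ ∧ (pwT X j).prodMap (pwT X j) z ∈ Λ)
  rw [h1]
  constructor
  · rintro ⟨h2, h3⟩
    exact ⟨h2, (Submodule.add_mem_iff_left Λ (Λ.smul_mem e h2)).1 h3⟩
  · rintro ⟨h2, h3⟩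
    exact ⟨h2, (Submodule.add_mem_iff_left Λ (Λ.smul_mem e h2)).2 h3⟩

theorem sub_card (W : Type) [AddCommGroup W] [Module (ZMod 2) W] [Finite W] :
    Nat.card W = 2 ^ finrank (ZMod 2) W := by
  rw [Module.natCard_eq_pow_finrank (K := ZMod 2), Nat.card_zmod]

theorem core_le (j : ℕ) {ω : V →ₗ[ZMod 2] V →ₗ[ZMod 2] ZMod 2}
    {Λ : Submodule (ZMod 2) ((Fin j → V) × (Fin j → V))} (hΛ : Mx (pwf ω j) Λ)
    (T : (Fin j → V) →ₗ[ZMod 2] (Fin j → V)) : Nat.card (core Λ T) ≤ Nat.card (Fin j → V) := by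
  rw [← hΛ.2]
  exact Nat.card_mono (Set.toFinite _) (inf_le_left : core Λ T ≤ Λ)

/-- the weight of a subspace -/
noncomputable def wt {P : Type} [Fintype P] (j : ℕ) (T : P → Module.End (ZMod 2) V)
    (Λ : Submodule (ZMod 2) ((Fin j → V) × (Fin j → V))) : ℝ :=
  ∏ p, √((Nat.card (core Λ (pwT (T p) j)) : ℝ) / (Nat.card (Fin j → V) : ℝ))

theorem s_sq : (√2 : ℝ) ^ 2 = 2 := Real.sq_sqrt (by norm_num)

theorem s_pos : (0 : ℝ) < √2 := Real.sqrt_pos.2 (by norm_num)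

theorem s_one : (1 : ℝ) ≤ √2 := by
  rw [Real.one_le_sqrt]; norm_num

/-- the weight of a subspace which is not nearly stable -/
theorem wt_le {P : Type} [Fintype P] {ω : V →ₗ[ZMod 2] V →ₗ[ZMod 2] ZMod 2} {j i M : ℕ}
    {T : P → Module.End (ZMod 2) V} {S : Set (Module.End (ZMod 2) V)}
    {Λ : Submodule (ZMod 2) ((Fin j → V) × (Fin j → V))}
    (hM : ∀ X ∈ S, M ≤ (univ.filter fun p => ∃ e : ZMod 2, T p = X + e • 1).card)
    (hΛ : Mx (pwf ω j) Λ) (hi : ∀ i' < i, ¬ Nst ω S j i' Λ) :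
    wt j T Λ ≤ ((√2 : ℝ)⁻¹) ^ (i * M) := by
  have hN : (0 : ℝ) < Nat.card (Fin j → V) := by exact_mod_cast Nat.card_pos
  have h1 : ∀ p, √((Nat.card (core Λ (pwT (T p) j)) : ℝ) / (Nat.card (Fin j → V) : ℝ)) ≤ 1 := by
    intro p
    refine Real.sqrt_le_iff.2 ⟨zero_le_one, ?_⟩
    rw [one_pow, div_le_one hN]
    exact_mod_cast core_le j hΛ _
  rcases Nat.eq_zero_or_pos i with rfl | hi0
  · rw [zero_mul, pow_zero]
    exact prod_le_one (fun p _ => Real.sqrt_nonneg _) fun p _ => h1 p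
  have h2 := hi (i - 1) (by omega)
  unfold Nst at h2
  push Not at h2
  obtain ⟨X, hX, h3⟩ := h2 hΛ
  have h4 : 2 ^ i * Nat.card (core Λ (pwT X j)) ≤ Nat.card (Fin j → V) := by
    rw [sub_card, sub_card] at h3 ⊢
    rw [← pow_add] at h3 ⊢
    have := (Nat.pow_lt_pow_iff_right (by norm_num : 1 < 2)).1 h3
    exact Nat.pow_le_pow_right (by norm_num) (by omega)
  have h5 : ∀ p ∈ univ.filter (fun p => ∃ e : ZMod 2, T p = X + e • 1),
      √((Nat.card (core Λ (pwT (T p) j)) : ℝ) / (Nat.card (Fin j → V) : ℝ)) ≤ ((√2 : ℝ)⁻¹) ^ i := by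
    intro p hp
    obtain ⟨e, he⟩ := (mem_filter.1 hp).2
    rw [he, core_add]
    apply Real.sqrt_le_iff.2
    refine ⟨by positivity, ?_⟩
    rw [← pow_mul, mul_comm i 2, pow_mul, inv_pow, s_sq, div_le_iff₀ hN, inv_pow]
    have h6 : (2 : ℝ) ^ i * Nat.card (core Λ (pwT X j)) ≤ Nat.card (Fin j → V) := by
      exact_mod_cast h4
    have h7 : (0 : ℝ) < 2 ^ i := by positivity
    rw [← mul_le_mul_iff_right₀ h7, ← mul_assoc, mul_inv_cancel₀ h7.ne', one_mul]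
    exact h6
  have hsi : (√2 : ℝ)⁻¹ ≤ 1 := inv_le_one_of_one_le₀ s_one
  have hsi0 : (0 : ℝ) ≤ (√2 : ℝ)⁻¹ := inv_nonneg.2 s_pos.le
  calc wt j T Λ = (∏ p ∈ univ.filter (fun p => ∃ e : ZMod 2, T p = X + e • 1),
        √((Nat.card (core Λ (pwT (T p) j)) : ℝ) / (Nat.card (Fin j → V) : ℝ))) *
        ∏ p ∈ univ.filter (fun p => ¬ ∃ e : ZMod 2, T p = X + e • 1),
        √((Nat.card (core Λ (pwT (T p) j)) : ℝ) / (Nat.card (Fin j → V) : ℝ)) := by
          unfold wt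
          rw [prod_filter_mul_prod_filter_not]
    _ ≤ (∏ p ∈ univ.filter (fun p => ∃ e : ZMod 2, T p = X + e • 1), ((√2 : ℝ)⁻¹) ^ i) * 1 := by
          refine mul_le_mul (prod_le_prod (fun p _ => Real.sqrt_nonneg _) h5)
            (prod_le_one (fun p _ => Real.sqrt_nonneg _) fun p _ => h1 p)
            (prod_nonneg fun p _ => Real.sqrt_nonneg _) (by positivity)
    _ = ((√2 : ℝ)⁻¹) ^ (i * (univ.filter fun p => ∃ e : ZMod 2, T p = X + e • 1).card) := by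
          rw [prod_const, mul_one, ← pow_mul]
    _ ≤ ((√2 : ℝ)⁻¹) ^ (i * M) :=
          pow_le_pow_of_le_one hsi0 hsi (Nat.mul_le_mul_left _ (hM X hX))

/-- the sum of the weights -/
theorem sum_wt {P : Type} [Fintype P] {ω : V →ₗ[ZMod 2] V →ₗ[ZMod 2] ZMod 2} (hω : Pl ω) {j C c : ℕ}
    {T : P → Module.End (ZMod 2) V} {S : Set (Module.End (ZMod 2) V)}
    (hM : ∀ X ∈ S, (C + 2) * (j + 1) ≤ (univ.filter fun p => ∃ e : ZMod 2, T p = X + e • 1).card)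
    (hS : ∀ i, Nat.card {Λ : Submodule (ZMod 2) ((Fin j → V) × (Fin j → V)) // Nst ω S j i Λ} ^ 2 ≤
      2 ^ (c * j ^ 2 + C * (i + 1) * (j + 1)))
    (𝓜 : Finset (Submodule (ZMod 2) ((Fin j → V) × (Fin j → V))))
    (h𝓜 : ∀ Λ, Λ ∈ 𝓜 ↔ Mx (pwf ω j) Λ) :
    ∑ Λ ∈ 𝓜, wt j T Λ ≤ 2 * (√2 : ℝ) ^ (c * j ^ 2 + C * (j + 1)) := by
  have hcard : Nat.card (Fin j → V) = 2 ^ (2 * j) := by
    rw [sub_card, Module.finrank_pi_fintype]
    simp only [hω.dim, sum_const, card_univ, Fintype.card_fin, smul_eq_mul]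
    rw [mul_comm]
  have hsi : (√2 : ℝ)⁻¹ ≤ 1 := inv_le_one_of_one_le₀ s_one
  have hsi0 : (0 : ℝ) ≤ (√2 : ℝ)⁻¹ := inv_nonneg.2 s_pos.le
  have hex : ∀ Λ ∈ 𝓜, ∃ i, i ≤ 2 * j ∧ Nst ω S j i Λ := by
    intro Λ hΛ
    refine ⟨2 * j, le_rfl, (h𝓜 Λ).1 hΛ, fun X _ => ?_⟩
    rw [hcard]
    exact Nat.le_mul_of_pos_right _ Nat.card_pos
  have h1 : ∀ Λ ∈ 𝓜, wt j T Λ ≤ ∑ i ∈ range (2 * j + 1), if Nst ω S j i Λ then
      ((√2 : ℝ)⁻¹) ^ (i * ((C + 2) * (j + 1))) else 0 := by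
    intro Λ hΛ
    obtain ⟨i, hi, hN⟩ := hex Λ hΛ
    have hex' : ∃ i, Nst ω S j i Λ := ⟨i, hN⟩
    have hle : Nat.find hex' ≤ 2 * j := (Nat.find_min' hex' hN).trans hi
    have h2 := wt_le (T := T) (i := Nat.find hex') (M := (C + 2) * (j + 1)) hM ((h𝓜 Λ).1 hΛ)
      (fun i' hi' => Nat.find_min hex' hi')
    refine h2.trans ?_
    have h3 := Finset.single_le_sum (f := fun i => if Nst ω S j i Λ then
      ((√2 : ℝ)⁻¹) ^ (i * ((C + 2) * (j + 1))) else 0) (s := range (2 * j + 1))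
      (fun i _ => by split_ifs <;> positivity) (mem_range.2 (Nat.lt_succ_of_le hle))
    rw [if_pos (Nat.find_spec hex')] at h3
    exact h3
  refine (sum_le_sum h1).trans ?_
  rw [sum_comm]
  have h2 : ∀ i, ∑ Λ ∈ 𝓜, (if Nst ω S j i Λ then ((√2 : ℝ)⁻¹) ^ (i * ((C + 2) * (j + 1))) else 0) ≤
      (√2 : ℝ) ^ (c * j ^ 2 + C * (j + 1)) * (1 / 2) ^ i := by
    intro i
    rw [← sum_filter, sum_const, nsmul_eq_mul]
    have h3 : ((𝓜.filter fun Λ => Nst ω S j i Λ).card : ℝ) ≤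
        (√2 : ℝ) ^ (c * j ^ 2 + C * (i + 1) * (j + 1)) := by
      have h4 : (𝓜.filter fun Λ => Nst ω S j i Λ).card ≤
          Nat.card {Λ : Submodule (ZMod 2) ((Fin j → V) × (Fin j → V)) // Nst ω S j i Λ} := by
        have e0 : Nat.card ↥(𝓜.filter fun Λ => Nst ω S j i Λ) =
            (𝓜.filter fun Λ => Nst ω S j i Λ).card :=
          Nat.card_eq_fintype_card.trans (Fintype.card_coe _)
        rw [← e0]
        refine Nat.card_le_card_of_injective (fun x => ⟨x.1, (mem_filter.1 x.2).2⟩)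
          (fun x y h => Subtype.ext ?_)
        exact Subtype.mk.inj h
      have h5 : ((𝓜.filter fun Λ => Nst ω S j i Λ).card : ℝ) ^ 2 ≤
          ((√2 : ℝ) ^ (c * j ^ 2 + C * (i + 1) * (j + 1))) ^ 2 := by
        rw [← pow_mul, mul_comm _ 2, pow_mul, s_sq]
        exact_mod_cast (Nat.pow_le_pow_left h4 2).trans (hS i)
      exact le_of_sq_le_sq h5 (by positivity)
    have h6 : (√2 : ℝ) ^ (c * j ^ 2 + C * (i + 1) * (j + 1)) *
        ((√2 : ℝ)⁻¹) ^ (i * ((C + 2) * (j + 1))) =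
        (√2 : ℝ) ^ (c * j ^ 2 + C * (j + 1)) * (1 / 2) ^ (i * (j + 1)) := by
      have h7 : (√2 : ℝ) ^ (c * j ^ 2 + C * (i + 1) * (j + 1)) =
          (√2 : ℝ) ^ (c * j ^ 2 + C * (j + 1)) * (√2 : ℝ) ^ (i * (C * (j + 1))) := by
        rw [← pow_add]
        congr 1
        ring
      have h8 : ((√2 : ℝ)⁻¹) ^ (i * ((C + 2) * (j + 1))) =
          ((√2 : ℝ)⁻¹) ^ (i * (C * (j + 1))) * (1 / 2) ^ (i * (j + 1)) := by
        have h9 : (1 / 2 : ℝ) = ((√2 : ℝ)⁻¹) ^ 2 := by rw [inv_pow, s_sq, one_div]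
        rw [h9, ← pow_mul, ← pow_add]
        congr 1
        ring
      have h10 : (√2 : ℝ) ^ (i * (C * (j + 1))) * ((√2 : ℝ)⁻¹) ^ (i * (C * (j + 1))) = 1 := by
        rw [← mul_pow, mul_inv_cancel₀ s_pos.ne', one_pow]
      rw [h7, h8]
      linear_combination ((√2 : ℝ) ^ (c * j ^ 2 + C * (j + 1)) * (1 / 2) ^ (i * (j + 1))) * h10
    calc ((𝓜.filter fun Λ => Nst ω S j i Λ).card : ℝ) *
          ((√2 : ℝ)⁻¹) ^ (i * ((C + 2) * (j + 1))) ≤
          (√2 : ℝ) ^ (c * j ^ 2 + C * (i + 1) * (j + 1)) *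
          ((√2 : ℝ)⁻¹) ^ (i * ((C + 2) * (j + 1))) := by gcongr
      _ = (√2 : ℝ) ^ (c * j ^ 2 + C * (j + 1)) * (1 / 2) ^ (i * (j + 1)) := h6
      _ ≤ (√2 : ℝ) ^ (c * j ^ 2 + C * (j + 1)) * (1 / 2) ^ i := by
        refine mul_le_mul_of_nonneg_left ?_ (by positivity)
        exact pow_le_pow_of_le_one (by norm_num) (by norm_num) (Nat.le_mul_of_pos_right _ (by omega))
  refine (sum_le_sum fun i _ => h2 i).trans ?_
  rw [← mul_sum, mul_comm]
  refine mul_le_mul_of_nonneg_right ?_ (by positivity)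
  have h3 := geom_sum_eq (by norm_num : (1 / 2 : ℝ) ≠ 1) (2 * j + 1)
  rw [h3]
  have h4 : (0 : ℝ) < (1 / 2) ^ (2 * j + 1) := by positivity
  rw [div_le_iff_of_neg (by norm_num)]
  linarith

end mom

theorem t_MOM (h1 : S_PROB) (h2 : S_MAX) (h3 : S_GAU) (h4 : S_CNT0) (h5 : S_CNT1) (h6 : S_CNT2) :
    S_MOM := by
  intro V _ _ _ ω hω
  obtain ⟨C₀, hC₀⟩ := h4 V ω hω
  have h5' : ∀ X : Module.End (ZMod 2) V, ∃ C : ℕ, (Sa ω X ∧ ∀ e : ZMod 2, X ≠ e • 1) → ∀ j i : ℕ,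
      Nat.card {Λ : Submodule (ZMod 2) ((Fin j → V) × (Fin j → V)) // Nst ω {X} j i Λ} ^ 2 ≤
      2 ^ (2 * j ^ 2 + C * (i + 1) * (j + 1)) := by
    intro X
    by_cases hX : Sa ω X ∧ ∀ e : ZMod 2, X ≠ e • 1
    · obtain ⟨C, hC⟩ := h5 V ω hω X hX.1 hX.2
      exact ⟨C, fun _ => hC⟩
    · exact ⟨0, fun h => absurd h hX⟩
  have h6' : ∀ S : Set (Module.End (ZMod 2) V), ∃ C : ℕ, Algebra.adjoin (ZMod 2) S = ⊤ → ∀ j i : ℕ,
      Nat.card {Λ : Submodule (ZMod 2) ((Fin j → V) × (Fin j → V)) // Nst ω S j i Λ} ^ 2 ≤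
      2 ^ (j ^ 2 + C * (i + 1) * (j + 1)) := by
    intro S
    by_cases hS : Algebra.adjoin (ZMod 2) S = ⊤
    · obtain ⟨C, hC⟩ := h6 V ω hω S hS
      exact ⟨C, fun _ => hC⟩
    · exact ⟨0, fun h => absurd h hS⟩
  choose C₁ hC₁ using h5'
  choose C₂ hC₂ using h6'
  have hfin : Finite (Module.End (ZMod 2) V) := DFunLike.finite _
  obtain ⟨B₁, hB₁⟩ := (Set.finite_range C₁).bddAbove
  obtain ⟨B₂, hB₂⟩ := (Set.finite_range C₂).bddAbove
  have hB₁' : ∀ X, C₁ X ≤ B₁ := fun X => hB₁ ⟨X, rfl⟩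
  have hB₂' : ∀ S, C₂ S ≤ B₂ := fun S => hB₂ ⟨S, rfl⟩
  set B := C₀ + B₁ + B₂ with hB
  refine ⟨B + 2, fun S c hTy hSa P _ _ D hD hDω j hM => ?_⟩
  -- the subset of the operators
  obtain ⟨S', hS'S, hS'⟩ : ∃ S' ⊆ S, ∀ i, Nat.card {Λ : Submodule (ZMod 2)
      ((Fin j → V) × (Fin j → V)) // Nst ω S' j i Λ} ^ 2 ≤
      2 ^ (c * j ^ 2 + B * (i + 1) * (j + 1)) := by
    rcases hTy with rfl | ⟨rfl, X, hX, hXs⟩ | ⟨rfl, hS⟩
    · refine ⟨∅, Set.empty_subset _, fun i => ?_⟩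
      have e1 : Nat.card {Λ : Submodule (ZMod 2) ((Fin j → V) × (Fin j → V)) // Nst ω ∅ j i Λ} =
          Nat.card {Λ : Submodule (ZMod 2) ((Fin j → V) × (Fin j → V)) // Mx (pwf ω j) Λ} := by
        refine Nat.card_congr (Equiv.subtypeEquivRight fun Λ => ?_)
        exact ⟨fun h => h.1, fun h => ⟨h, fun X hX => absurd hX (Set.notMem_empty X)⟩⟩
      rw [e1]
      refine (hC₀ j).trans (Nat.pow_le_pow_right (by norm_num) ?_)
      have : C₀ * (j + 1) ≤ B * (i + 1) * (j + 1) := by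
        refine Nat.mul_le_mul_right _ ?_
        exact (by omega : C₀ ≤ B).trans (Nat.le_mul_of_pos_right _ (by omega))
      omega
    · refine ⟨{X}, Set.singleton_subset_iff.2 hX, fun i => ?_⟩
      refine (hC₁ X ⟨hSa X hX, hXs⟩ j i).trans (Nat.pow_le_pow_right (by norm_num) ?_)
      have : C₁ X * (i + 1) * (j + 1) ≤ B * (i + 1) * (j + 1) := by
        refine Nat.mul_le_mul_right _ (Nat.mul_le_mul_right _ ?_)
        have := hB₁' X
        omega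
      omega
    · refine ⟨S, subset_rfl, fun i => ?_⟩
      refine (hC₂ S hS j i).trans (Nat.pow_le_pow_right (by norm_num) ?_)
      have : C₂ S * (i + 1) * (j + 1) ≤ B * (i + 1) * (j + 1) := by
        refine Nat.mul_le_mul_right _ (Nat.mul_le_mul_right _ ?_)
        have := hB₂' S
        omega
      omega
  -- the sum over the subspaces
  let _ : Fintype V := Fintype.ofFinite V
  let _ : Fintype (Fin j → V) := Fintype.ofFinite _
  let _ : Fintype (Submodule (ZMod 2) ((Fin j → V) × (Fin j → V))) := Fintype.ofFinite _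
  set 𝓜 : Finset (Submodule (ZMod 2) ((Fin j → V) × (Fin j → V))) :=
    univ.filter (fun Λ => Mx (pwf ω j) Λ) with h𝓜d
  have h𝓜 : ∀ Λ, Λ ∈ 𝓜 ↔ Mx (pwf ω j) Λ := fun Λ => by
    rw [h𝓜d, mem_filter]
    exact ⟨fun h => h.2, fun h => ⟨mem_univ _, h⟩⟩
  obtain ⟨hok, hK⟩ := t_POW P V D hD j
  have hpω : (D.pw j).ω = pwf ω j := by
    show pwf D.ω j = pwf ω j
    rw [hDω]
  have hsum := sum_wt (ω := ω) hω (T := D.T) (c := c) (fun X hX => hM X (hS'S hX)) hS' 𝓜 h𝓜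
  -- the chain
  have e1 := h1 P (Fin j → V) (D.pw j) hok
  have e2 := h2 P (Fin j → V) (D.pw j) hok 𝓜 (by rw [hpω]; exact h𝓜)
  have e3 : ∑ Λ ∈ 𝓜, |∑ z : P → Λ, sg ((D.pw j).Θ fun p => (z p : (Fin j → V) × (Fin j → V)))| ≤
      ∑ Λ ∈ 𝓜, √(Fintype.card (Fin j → V) : ℝ) * (Fintype.card (Fin j → V) : ℝ) ^ Fintype.card P *
        wt j D.T Λ := by
    refine sum_le_sum fun Λ hΛ => ?_
    have := h3 P (Fin j → V) (D.pw j) hok Λ (by rw [hpω]; exact (h𝓜 Λ).1 hΛ)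
    refine this.trans (le_of_eq ?_)
    unfold wt
    simp only [Nat.card_eq_fintype_card (α := Fin j → V)]
    rfl
  have hN0 : (0 : ℝ) < (Fintype.card (Fin j → V) : ℝ) ^ Fintype.card P := by
    have : (0 : ℝ) < Fintype.card (Fin j → V) := by exact_mod_cast Fintype.card_pos
    positivity
  have e4 : (∑ a : Sym2 P → ZMod 2, (Nat.card (D.K a) : ℝ) ^ j) ≤
      2 ^ Fintype.card (Sym2 P) * (√(Fintype.card (Fin j → V) : ℝ) *
        (2 * (√2 : ℝ) ^ (c * j ^ 2 + B * (j + 1)))) := by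
    have e5 : ∀ a, (Nat.card ((D.pw j).K a) : ℝ) = (Nat.card (D.K a) : ℝ) ^ j := by
      intro a
      rw [hK a]
      push_cast
      rfl
    simp only [e5] at e1
    have e6 : (∑ a : Sym2 P → ZMod 2, (Nat.card (D.K a) : ℝ) ^ j) *
        (Fintype.card (Fin j → V) : ℝ) ^ Fintype.card P ≤
        (2 ^ Fintype.card (Sym2 P) * (√(Fintype.card (Fin j → V) : ℝ) *
        (2 * (√2 : ℝ) ^ (c * j ^ 2 + B * (j + 1))))) *
        (Fintype.card (Fin j → V) : ℝ) ^ Fintype.card P := by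
      rw [e1]
      calc _ ≤ 2 ^ Fintype.card (Sym2 P) * ∑ Λ ∈ 𝓜, √(Fintype.card (Fin j → V) : ℝ) *
            (Fintype.card (Fin j → V) : ℝ) ^ Fintype.card P * wt j D.T Λ :=
            mul_le_mul_of_nonneg_left (e2.trans e3) (by positivity)
        _ = 2 ^ Fintype.card (Sym2 P) * (√(Fintype.card (Fin j → V) : ℝ) *
            (Fintype.card (Fin j → V) : ℝ) ^ Fintype.card P * ∑ Λ ∈ 𝓜, wt j D.T Λ) := by
            rw [← mul_sum]
        _ ≤ 2 ^ Fintype.card (Sym2 P) * (√(Fintype.card (Fin j → V) : ℝ) *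
            (Fintype.card (Fin j → V) : ℝ) ^ Fintype.card P *
              (2 * (√2 : ℝ) ^ (c * j ^ 2 + B * (j + 1)))) := by
            refine mul_le_mul_of_nonneg_left ?_ (by positivity)
            exact mul_le_mul_of_nonneg_left hsum (by positivity)
        _ = _ := by ring
    exact le_of_mul_le_mul_right e6 hN0
  have hcard : (Fintype.card (Fin j → V) : ℝ) = ((√2 : ℝ) ^ (2 * j)) ^ 2 := by
    have : Nat.card (Fin j → V) = 2 ^ (2 * j) := by
      rw [sub_card, Module.finrank_pi_fintype]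
      simp only [hω.dim, sum_const, card_univ, Fintype.card_fin, smul_eq_mul]
      rw [mul_comm]
    rw [← Nat.card_eq_fintype_card, this]
    push_cast
    rw [← pow_mul, mul_comm (2 * j) 2, pow_mul (√2 : ℝ), s_sq]
  rw [hcard, Real.sqrt_sq (by positivity)] at e4
  have e7 : (2 : ℝ) ^ Fintype.card (Sym2 P) * ((√2 : ℝ) ^ (2 * j) *
      (2 * (√2 : ℝ) ^ (c * j ^ 2 + B * (j + 1)))) =
      2 ^ Fintype.card (Sym2 P) * (√2 : ℝ) ^ (c * j ^ 2 + (B + 2) * (j + 1)) := by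
    have : (√2 : ℝ) ^ (c * j ^ 2 + (B + 2) * (j + 1)) =
        (√2 : ℝ) ^ (2 * j) * ((√2 : ℝ) ^ 2 * (√2 : ℝ) ^ (c * j ^ 2 + B * (j + 1))) := by
      rw [← pow_add, ← pow_add]
      congr 1
      ring
    rw [this, s_sq]
  rw [e7] at e4
  have e8 : (∑ a : Sym2 P → ZMod 2, (Nat.card (D.K a) : ℝ) ^ j) ^ 2 ≤
      (2 ^ Fintype.card (Sym2 P) * (√2 : ℝ) ^ (c * j ^ 2 + (B + 2) * (j + 1))) ^ 2 :=
    pow_le_pow_left₀ (sum_nonneg fun a _ => by positivity) e4 2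
  rw [mul_pow, ← pow_mul (√2 : ℝ), mul_comm _ 2, pow_mul (√2 : ℝ), s_sq] at e8
  exact_mod_cast e8

end Q257.MX
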