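import Pool.Agent.Q257.MX.Sg

/-!
# Project MX, job PROB: the mean number of the solutions as a character sum
-/

set_option autoImplicit false

namespace Q257.MX

open Finset Module Q44.MX
open scoped Classical

section

variable {P H : Type} [AddCommGroup H] [Module (ZMod 2) H]

/-- the sum of the characters is the indicator of zero -/
theorem sum_pair [Fintype H] {ω : H →ₗ[ZMod 2] H →ₗ[ZMod 2] ZMod 2} (alt : ∀ x, ω x x = 0)
    (nd : ∀ x, (∀ y, ω x y = 0) → x = 0) (v : H) :
    ∑ W, sg (ω W v) = if v = 0 then (Fintype.card H : ℝ) else 0 := by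
  have h := sum_sg (ω.flip v).toAddMonoidHom
  simp only [LinearMap.toAddMonoidHom_coe, LinearMap.flip_apply] at h
  rw [h]
  have hsym : ∀ x y, ω x y = ω y x := by
    intro x y
    have h1 := alt (x + y)
    rw [map_add, map_add, LinearMap.add_apply, LinearMap.add_apply, alt, alt, zero_add,
      add_zero] at h1
    have h2 : ω x y = -ω y x := by linear_combination h1
    rw [h2, CharTwo.neg_eq]
  by_cases hv : v = 0
  · rw [if_pos hv, if_pos]
    intro a
    rw [hv, map_zero]
  · rw [if_neg hv, if_neg]
    intro h0
    exact hv (nd v fun y => by rw [hsym]; exact h0 y)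

/-- a symmetric sum with zero diagonal vanishes -/
theorem sum_symm [Fintype P] (f : P → P → ZMod 2) (hs : ∀ p q, f p q = f q p)
    (hd : ∀ p, f p p = 0) : ∑ p, ∑ q, f p q = 0 := by
  rw [← Finset.sum_product']
  refine Finset.sum_involution (fun z _ => (z.2, z.1)) ?_ ?_ ?_ ?_
  · rintro ⟨p, q⟩ _
    show f p q + f q p = 0
    rw [hs q p, CharTwo.add_self_eq_zero]
  · rintro ⟨p, q⟩ _ h0 h1
    apply h0
    have h2 : q = p := congrArg Prod.fst h1
    subst h2
    exact hd _
  · rintro ⟨p, q⟩ _
    exact mem_product.2 ⟨mem_univ _, mem_univ _⟩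
  · rintro ⟨p, q⟩ _
    rfl

end

theorem t_PROB : S_PROB := by
  intro P H _ _ _ _ _ D hD
  -- the linear form
  let L : (P → H × H) → (Sym2 P → ZMod 2) →+ ZMod 2 := fun z =>
    { toFun := fun a => ∑ p, ∑ q, a s(p, q) * D.ω (z p).2 (z q).1
      map_zero' := by simp
      map_add' := fun a b => by
        rw [← sum_add_distrib]
        refine sum_congr rfl fun p _ => ?_
        rw [← sum_add_distrib]
        refine sum_congr rfl fun q _ => ?_
        rw [Pi.add_apply, add_mul] }
  have hL : ∀ z a, L z a = ∑ p, ∑ q, a s(p, q) * D.ω (z p).2 (z q).1 := fun _ _ => rfl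
  have hLs : ∀ z (s : Sym2 P), L z (Pi.single s 1) =
      ∑ p, ∑ q, if s(p, q) = s then D.ω (z p).2 (z q).1 else 0 := by
    intro z s
    rw [hL]
    refine sum_congr rfl fun p _ => sum_congr rfl fun q _ => ?_
    rw [Pi.single_apply]
    split_ifs <;> simp
  have hLT : ∀ z, (∀ a, L z a = 0) ↔ Ts D.ω z := by
    intro z
    constructor
    · intro h
      constructor
      · intro p
        have h1 := h (Pi.single s(p, p) 1)
        rw [hLs, Finset.sum_eq_single p, Finset.sum_eq_single p, if_pos rfl] at h1
        · exact h1
        · intro q _ hq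
          rw [if_neg]
          rw [Sym2.eq_iff]
          rintro (⟨_, h⟩ | ⟨_, h⟩) <;> exact hq h
        · intro h; exact absurd (mem_univ _) h
        · intro q _ hq
          refine sum_eq_zero fun r _ => ?_
          rw [if_neg]
          rw [Sym2.eq_iff]
          rintro (⟨h, _⟩ | ⟨h, _⟩) <;> exact hq h
        · intro h; exact absurd (mem_univ _) h
      · intro p q
        by_cases hpq : p = q
        · subst hpq; rfl
        have h1 := h (Pi.single s(p, q) 1)
        have h2 : ∀ r t, (if s(r, t) = s(p, q) then D.ω (z r).2 (z t).1 else 0) =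
            (if r = p then (if t = q then D.ω (z r).2 (z t).1 else 0) else 0) +
            (if r = q then (if t = p then D.ω (z r).2 (z t).1 else 0) else 0) := by
          intro r t
          by_cases h3 : r = p
          · subst h3
            rw [if_pos rfl, if_neg hpq, add_zero]
            by_cases h4 : t = q
            · subst h4; rw [if_pos rfl, if_pos rfl]
            · rw [if_neg h4, if_neg]
              rw [Sym2.eq_iff]
              rintro (⟨_, h⟩ | ⟨h, _⟩)
              · exact h4 h
              · exact hpq h
          · rw [if_neg h3, zero_add]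
            by_cases h5 : r = q
            · subst h5
              rw [if_pos rfl]
              by_cases h6 : t = p
              · subst h6; rw [if_pos rfl, if_pos Sym2.eq_swap]
              · rw [if_neg h6, if_neg]
                rw [Sym2.eq_iff]
                rintro (⟨h, _⟩ | ⟨_, h⟩)
                · exact h3 h
                · exact h6 h
            · rw [if_neg h5, if_neg]
              rw [Sym2.eq_iff]
              rintro (⟨h, _⟩ | ⟨h, _⟩)
              · exact h3 h
              · exact h5 h
        rw [hLs] at h1
        simp only [h2, sum_add_distrib, Finset.sum_ite_irrel, sum_const_zero, sum_ite_eq', mem_univ,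
          if_true] at h1
        have h3 : D.ω (z p).2 (z q).1 = -D.ω (z q).2 (z p).1 := by linear_combination h1
        rw [h3, CharTwo.neg_eq]
    · intro h a
      rw [hL]
      apply sum_symm
      · intro p q
        rw [h.2 p q, Sym2.eq_swap]
      · intro p
        rw [h.1 p, mul_zero]
  -- the value of the form
  have hval : ∀ (z : P → H × H) (a : Sym2 P → ZMod 2),
      ∑ p, D.ω (z p).2 (D.row a (fun q => (z q).1) p) = D.Θ z + L z a := by
    intro z a
    rw [hL]
    unfold Md.Θ
    have h1 : ∀ p, D.ω (z p).2 (D.row a (fun q => (z q).1) p) =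
        ∑ q, a s(p, q) * D.ω (z p).2 (z q).1 +
        ∑ q ∈ univ.filter (fun q => q < p), D.h p * D.h q * D.ω (z p).2 (z q).1 +
        D.ω (z p).2 (D.T p (z p).1) := by
      intro p
      show D.ω (z p).2 (∑ q, a s(p, q) • (z q).1 +
        ∑ q ∈ univ.filter (fun q => q < p), (D.h p * D.h q) • (z q).1 + D.T p (z p).1) = _
      rw [map_add, map_add, map_sum, map_sum]
      simp only [map_smul, smul_eq_mul]
    simp only [h1, sum_add_distrib]
    ring
  -- the number of the solutions
  have hK : ∀ a, (Nat.card (D.K a) : ℝ) * (Fintype.card H : ℝ) ^ Fintype.card P =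
      ∑ z : P → H × H, sg (D.Θ z + L z a) := by
    intro a
    have h1 : (Nat.card (D.K a) : ℝ) = ∑ x : P → H, if D.row a x = 0 then (1 : ℝ) else 0 := by
      rw [Finset.sum_boole, Nat.card_eq_fintype_card, Fintype.card_subtype]
      congr 2
      ext x
      simp only [mem_filter, mem_univ, true_and]
      exact LinearMap.mem_ker
    rw [h1, sum_mul]
    have h2 : ∀ x : P → H, (if D.row a x = 0 then (1 : ℝ) else 0) *
        (Fintype.card H : ℝ) ^ Fintype.card P =
        ∑ W : P → H, sg (∑ p, D.ω (W p) (D.row a x p)) := by
      intro x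
      simp only [sg_sum]
      have h3 := Finset.prod_univ_sum (fun _ : P => (univ : Finset H))
        (fun p w => sg (D.ω w (D.row a x p)))
      rw [Fintype.piFinset_univ] at h3
      rw [← h3]
      simp only [sum_pair hD.alt hD.nd]
      by_cases h4 : D.row a x = 0
      · rw [if_pos h4, one_mul, h4]
        simp only [Pi.zero_apply, if_true, prod_const, card_univ]
      · rw [if_neg h4, zero_mul]
        obtain ⟨p, hp⟩ := Function.ne_iff.1 h4
        exact (Finset.prod_eq_zero (mem_univ p) (if_neg hp)).symm
    simp only [h2]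
    rw [← Fintype.sum_prod_type' (f := fun (x W : P → H) => sg (∑ p, D.ω (W p) (D.row a x p)))]
    rw [← Equiv.sum_comp (Equiv.arrowProdEquivProdArrow P (fun _ => H) (fun _ => H))]
    refine sum_congr rfl fun z _ => ?_
    rw [← hval]
    rfl
  rw [sum_mul]
  simp only [hK]
  rw [sum_comm, mul_sum]
  refine sum_congr rfl fun z _ => ?_
  simp only [sg_add]
  rw [← mul_sum, sum_sg]
  by_cases h : Ts D.ω z
  · rw [if_pos h, if_pos ((hLT z).2 h), Fintype.card_fun, ZMod.card]
    push_cast
    ring
  · rw [if_neg h, if_neg (fun h' => h ((hLT z).1 h'))]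
    ring

end Q257.MX
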