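import Pool.Agent.Q44.MX.Stm

/-!
# Project MX: sums of signs
-/

set_option autoImplicit false

namespace Q257.MX

open Finset Module Q44.MX
open scoped Classical

theorem sg_zero : sg 0 = 1 := by unfold sg; simp

theorem sg_one : sg 1 = -1 := by unfold sg; simp

theorem sg_add (a b : ZMod 2) : sg (a + b) = sg a * sg b := by
  have h : ∀ c : ZMod 2, c = 0 ∨ c = 1 := by decide
  rcases h a with rfl | rfl <;> rcases h b with rfl | rfl
  · rw [add_zero, sg_zero, one_mul]
  · rw [zero_add, sg_zero, one_mul]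
  · rw [add_zero, sg_zero, mul_one]
  · rw [show (1 : ZMod 2) + 1 = 0 by decide, sg_zero, sg_one]; norm_num

theorem sg_sum {ι : Type} (s : Finset ι) (f : ι → ZMod 2) :
    sg (∑ i ∈ s, f i) = ∏ i ∈ s, sg (f i) := by
  induction s using Finset.induction_on with
  | empty => rw [sum_empty, prod_empty, sg_zero]
  | insert a s ha ih => rw [sum_insert ha, prod_insert ha, sg_add, ih]

theorem sg_sq (a : ZMod 2) : sg a * sg a = 1 := by
  rw [← sg_add, CharTwo.add_self_eq_zero, sg_zero]

theorem sg_abs (a : ZMod 2) : |sg a| = 1 := by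
  have h : ∀ c : ZMod 2, c = 0 ∨ c = 1 := by decide
  rcases h a with rfl | rfl
  · rw [sg_zero, abs_one]
  · rw [sg_one, abs_neg, abs_one]

/-- the sum of the signs of a linear form -/
theorem sum_sg {A : Type} [AddCommGroup A] [Fintype A] (L : A →+ ZMod 2) :
    ∑ a, sg (L a) = if ∀ a, L a = 0 then (Fintype.card A : ℝ) else 0 := by
  split_ifs with h
  · simp only [h, sg_zero, sum_const, card_univ, nsmul_eq_mul, mul_one]
  · push Not at h
    obtain ⟨b, hb⟩ := h
    have hb1 : L b = 1 := by
      have h2 : ∀ c : ZMod 2, c ≠ 0 → c = 1 := by decide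
      exact h2 _ hb
    have h1 : ∑ a, sg (L a) = ∑ a, sg (L (a + b)) :=
      (Equiv.sum_comp (Equiv.addRight b) (fun a => sg (L a))).symm
    have h2 : ∑ a, sg (L (a + b)) = -∑ a, sg (L a) := by
      rw [← sum_neg_distrib]
      refine sum_congr rfl fun a _ => ?_
      rw [map_add, hb1, sg_add, sg_one]
      ring
    linarith

theorem sum_sg_nonneg {A : Type} [AddCommGroup A] [Fintype A] (L : A →+ ZMod 2) :
    0 ≤ ∑ a, sg (L a) := by
  rw [sum_sg]
  split_ifs
  · positivity
  · exact le_rfl

end Q257.MX
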